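import Pool.Agent.ANR.Stmts

/-! Squad ANR, rows LV2 and TAL (helper17). -/

set_option autoImplicit false

open scoped BigOperators ComplexConjugate

noncomputable section

namespace Pool.Agent.ANR.H17

open Pool.Agent.ANR

section

variable {X : Type} [Fintype X] [DecidableEq X]

theorem opv_sub (H : Matrix X X ℝ) (κ : X → ℝ) (φ ψ : X → ℂ) (z : X) :
    opv H κ (fun w => φ w - ψ w) z = opv H κ φ z - opv H κ ψ z := by
  unfold opv
  simp only [mul_sub, Finset.sum_sub_distrib]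
  ring

theorem opv_off {H H' : Matrix X X ℝ} {κ κ' : X → ℝ} {F : Finset X} (h : Off H κ H' κ' F)
    (ψ : X → ℂ) {z : X} (hz : z ∉ F) : opv H' κ' ψ z = opv H κ ψ z := by
  unfold opv
  rw [(h z hz).1]
  simp only [(h z hz).2]

theorem sq_norm_sub_le (a b : ℂ) : ‖a - b‖ ^ 2 ≤ 2 * ‖a‖ ^ 2 + 2 * ‖b‖ ^ 2 := by
  have h1 : ‖a - b‖ ≤ ‖a‖ + ‖b‖ := norm_sub_le a b
  have h2 : ‖a - b‖ ^ 2 ≤ (‖a‖ + ‖b‖) ^ 2 := by
    apply pow_le_pow_left₀ (norm_nonneg _) h1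
  nlinarith [sq_nonneg (‖a‖ - ‖b‖)]

end

theorem lv2 (h1 : Lv1Stmt) (hD : DirStmt) (hG : GeqStmt) : Lv2Stmt := by
  intro X _ _ H H' κ κ' F x y Lx Ly hN hN' hoff hx hy hLx hLy hlx hly
  obtain ⟨g₀, ⟨h0, h0'⟩, -⟩ := hD X H κ F hN (fun _ => 0) (fun z => if z = y then 1 else 0)
  obtain ⟨e1, -⟩ := hG X H κ hN
  obtain ⟨e1', -⟩ := hG X H' κ' hN'
  have hself : Off H κ H κ F := fun z _ => ⟨rfl, fun _ => rfl⟩
  obtain ⟨a1, a2⟩ := h1 X H H κ κ F y Ly (fun z => Gr H κ z y) g₀ hN hN hself hy hLy hly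
    (fun z => e1 z y) h0 (fun z hz => h0' z hz)
  obtain ⟨b1, b2⟩ := h1 X H H' κ κ' F y Ly (fun z => Gr H' κ' z y) g₀ hN hN' hoff hy hLy hly
    (fun z => e1' z y) h0 (fun z hz => h0' z hz)
  have hQ : Q κ F (fun z => Gr H κ z y - Gr H' κ' z y) ≤ 4 * Ly := by
    have hle : Q κ F (fun z => Gr H κ z y - Gr H' κ' z y) ≤
        2 * Q κ F (fun z => Gr H κ z y - g₀ z) + 2 * Q κ F (fun z => Gr H' κ' z y - g₀ z) := by
      unfold Q
      rw [Finset.mul_sum, Finset.mul_sum, ← Finset.sum_add_distrib]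
      refine Finset.sum_le_sum fun z _ => ?_
      have h3 := sq_norm_sub_le (Gr H κ z y - g₀ z) (Gr H' κ' z y - g₀ z)
      rw [sub_sub_sub_cancel_right] at h3
      have h4 := mul_le_mul_of_nonneg_left h3 (hN.pos z).le
      calc κ z * ‖Gr H κ z y - Gr H' κ' z y‖ ^ 2
          ≤ κ z * (2 * ‖Gr H κ z y - g₀ z‖ ^ 2 + 2 * ‖Gr H' κ' z y - g₀ z‖ ^ 2) := h4
        _ = _ := by ring
    linarith
  have hsol : Sol H κ F (fun z => Gr H κ z y - Gr H' κ' z y) := by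
    intro z hz
    rw [opv_sub, e1 z y]
    have h5 := e1' z y
    rw [opv_off hoff _ hz] at h5
    rw [h5, sub_self]
  refine ⟨?_, hQ, a2, b2⟩
  have h6 := hlx _ hsol
  have h7 : Lx * Q κ F (fun z => Gr H κ z y - Gr H' κ' z y) ≤ Lx * (4 * Ly) :=
    mul_le_mul_of_nonneg_left hQ hLx
  calc ‖Gr H κ x y - Gr H' κ' x y‖ ^ 2 ≤ Lx * Q κ F (fun z => Gr H κ z y - Gr H' κ' z y) := h6
    _ ≤ Lx * (4 * Ly) := h7
    _ = 4 * Lx * Ly := by ring

theorem tal : TalStmt := by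
  intro X _ _ H κ F O S x κ₀ u hN hOF hSF hx hκ₀ hS hOS hu0 hu ψ hψ
  -- the identity
  have hid : ψ x = - ∑ y ∈ S \ O, (∑ z ∈ O, (H z y : ℂ) * u z) * ψ y := by
    have hz0 : ∑ z ∈ O, u z * opv H κ ψ z = 0 := by
      refine Finset.sum_eq_zero fun z hz => ?_
      rw [hψ z (Finset.disjoint_left.1 hOF hz), mul_zero]
    have hexp : ∑ z ∈ O, u z * opv H κ ψ z =
        ∑ y, (∑ z ∈ O, (H z y : ℂ) * u z) * ψ y - ∑ z ∈ O, Complex.I * (κ z : ℂ) * u z * ψ z := by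
      have e1 : ∀ z ∈ O, u z * opv H κ ψ z =
          ∑ y, (H z y : ℂ) * u z * ψ y - Complex.I * (κ z : ℂ) * u z * ψ z := by
        intro z _
        unfold opv
        rw [mul_sub, Finset.mul_sum]
        congr 1
        · exact Finset.sum_congr rfl fun y _ => by ring
        · ring
      rw [Finset.sum_congr rfl e1, Finset.sum_sub_distrib, Finset.sum_comm]
      congr 1
      exact Finset.sum_congr rfl fun y _ => by rw [Finset.sum_mul]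
    have hin : ∀ y ∈ O, (∑ z ∈ O, (H z y : ℂ) * u z) * ψ y - Complex.I * (κ y : ℂ) * u y * ψ y =
        (if y = x then 1 else 0) * ψ y := by
      intro y hy
      rw [← hu y hy]
      unfold opv
      rw [sub_mul]
      congr 2
      rw [← Finset.sum_subset (Finset.subset_univ O) (f := fun z => (H y z : ℂ) * u z)
        (fun z _ hz => by rw [hu0 z hz, mul_zero])]
      exact Finset.sum_congr rfl fun z _ => by rw [hN.sym z y]
    have hsplit : ∑ y, (∑ z ∈ O, (H z y : ℂ) * u z) * ψ y =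
        ∑ y ∈ O, (∑ z ∈ O, (H z y : ℂ) * u z) * ψ y +
          ∑ y ∈ S \ O, (∑ z ∈ O, (H z y : ℂ) * u z) * ψ y := by
      rw [← Finset.sum_add_sum_compl O]
      congr 1
      symm
      apply Finset.sum_subset
      · intro y hy
        rw [Finset.mem_compl]
        exact (Finset.mem_sdiff.1 hy).2
      · intro y hy hyS
        have hyO : y ∉ O := Finset.mem_compl.1 hy
        have hyS' : y ∉ S := fun h => hyS (Finset.mem_sdiff.2 ⟨h, hyO⟩)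
        rw [Finset.sum_eq_zero, zero_mul]
        intro z hz
        have hH : H z y = 0 := by
          by_contra hne
          exact hyS' (hOS z hz y hyO hne)
        rw [hH]
        simp
    rw [hexp, hsplit] at hz0
    have h3 : ∑ y ∈ O, (∑ z ∈ O, (H z y : ℂ) * u z) * ψ y -
        ∑ z ∈ O, Complex.I * (κ z : ℂ) * u z * ψ z = ψ x := by
      rw [← Finset.sum_sub_distrib, Finset.sum_congr rfl hin]
      simp only [ite_mul, one_mul, zero_mul]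
      rw [Finset.sum_ite_eq' O x, if_pos hx]
    have h4 : ψ x + ∑ y ∈ S \ O, (∑ z ∈ O, (H z y : ℂ) * u z) * ψ y = 0 := by
      rw [← h3, ← hz0]
      ring
    exact eq_neg_of_add_eq_zero_left h4
  set w : X → ℂ := fun y => ∑ z ∈ O, (H z y : ℂ) * u z with hw
  have hA : ∑ y ∈ S \ O, ‖w y‖ ^ 2 ≤ ∑ y ∈ S, ‖w y‖ ^ 2 :=
    Finset.sum_le_sum_of_subset_of_nonneg Finset.sdiff_subset fun _ _ _ => by positivity
  have hB : ∑ y ∈ S \ O, ‖ψ y‖ ^ 2 ≤ κ₀⁻¹ * Q κ F ψ := by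
    unfold Q
    rw [← div_eq_inv_mul, le_div_iff₀ hκ₀, Finset.sum_mul]
    calc ∑ y ∈ S \ O, ‖ψ y‖ ^ 2 * κ₀ ≤ ∑ y ∈ S \ O, κ y * ‖ψ y‖ ^ 2 := by
          refine Finset.sum_le_sum fun y hy => ?_
          rw [mul_comm]
          exact mul_le_mul_of_nonneg_right (hS y (Finset.mem_sdiff.1 hy).1) (by positivity)
      _ ≤ ∑ y ∈ Fᶜ, κ y * ‖ψ y‖ ^ 2 := by
          refine Finset.sum_le_sum_of_subset_of_nonneg ?_ ?_
          · intro y hy
            rw [Finset.mem_compl]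
            exact Finset.disjoint_left.1 hSF (Finset.mem_sdiff.1 hy).1
          · intro y _ _
            exact mul_nonneg (hN.pos y).le (by positivity)
  have hC : ‖ψ x‖ ^ 2 ≤ (∑ y ∈ S \ O, ‖w y‖ ^ 2) * ∑ y ∈ S \ O, ‖ψ y‖ ^ 2 := by
    have h5 : ‖ψ x‖ ≤ ∑ y ∈ S \ O, ‖w y‖ * ‖ψ y‖ := by
      rw [hid, norm_neg]
      refine (norm_sum_le _ _).trans (le_of_eq ?_)
      exact Finset.sum_congr rfl fun y _ => norm_mul _ _
    calc ‖ψ x‖ ^ 2 ≤ (∑ y ∈ S \ O, ‖w y‖ * ‖ψ y‖) ^ 2 :=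
          pow_le_pow_left₀ (norm_nonneg _) h5 2
      _ ≤ _ := Finset.sum_mul_sq_le_sq_mul_sq _ _ _
  have hS0 : 0 ≤ ∑ y ∈ S \ O, ‖w y‖ ^ 2 := Finset.sum_nonneg fun _ _ => by positivity
  have hQ0 : 0 ≤ κ₀⁻¹ * Q κ F ψ := (Finset.sum_nonneg fun _ _ => by positivity).trans hB
  calc ‖ψ x‖ ^ 2 ≤ (∑ y ∈ S \ O, ‖w y‖ ^ 2) * ∑ y ∈ S \ O, ‖ψ y‖ ^ 2 := hC
    _ ≤ (∑ y ∈ S \ O, ‖w y‖ ^ 2) * (κ₀⁻¹ * Q κ F ψ) := mul_le_mul_of_nonneg_left hB hS0
    _ ≤ (∑ y ∈ S, ‖w y‖ ^ 2) * (κ₀⁻¹ * Q κ F ψ) := mul_le_mul_of_nonneg_right hA hQ0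
    _ = κ₀⁻¹ * (∑ y ∈ S, ‖w y‖ ^ 2) * Q κ F ψ := by ring

end Pool.Agent.ANR.H17
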